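import Pool.Agent.H73.CBE.Stmts

/-!
# Board CBE, row SDF: the derivative of `S`
-/

set_option autoImplicit false

open Set Filter Topology

namespace Pool.CBE

theorem SDF_thm (h1 : UKLStmt) (h2 : UBDStmt) (h3 : ITRStmt) : SDFStmt := by
  intro n f d η C θ a hyp z hz
  obtain ⟨L, hL, hU⟩ := h1 n f d η C θ a hyp
  obtain ⟨⟨L', hL', hB⟩, -⟩ := h2 n f d η C θ a hyp
  have hI := h3 n f d η C θ a hyp
  have hd2 : (2 : ℝ) ≤ d := by exact_mod_cast hyp.hd
  have hd0 : (0 : ℝ) < d := by linarith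
  have hθ0 : (0 : ℝ) < θ := lt_of_lt_of_le one_pos hyp.hθ
  have hθd : θ < d := by
    have e1 : θ ^ (1 : ℝ) ≤ θ ^ (1 + a) :=
      Real.rpow_le_rpow_of_exponent_le hyp.hθ (by linarith [hyp.ha0])
    rw [Real.rpow_one] at e1
    exact lt_of_le_of_lt e1 hyp.hθa
  have hball : ∀ y ∈ Metric.ball z (‖z‖ - 1 / 2), 1 / 2 ≤ ‖y‖ := by
    intro y hy
    rw [Metric.mem_ball, dist_eq_norm] at hy
    have h4 : ‖z‖ ≤ ‖y‖ + ‖y - z‖ := by
      have h5 : z = y - (y - z) := by abel
      calc ‖z‖ = ‖y - (y - z)‖ := by rw [← h5]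
        _ ≤ ‖y‖ + ‖y - z‖ := norm_sub_le _ _
    linarith
  have hS : S f d = fun y => ∑' k : ℕ, ((d : ℝ) ^ (k + 1))⁻¹ • u f d (f^[k] y) := by
    funext y
    unfold S
    apply tsum_congr
    intro k
    rw [smul_eq_mul, div_eq_inv_mul]
  have hsum : Summable fun k : ℕ => L / d * (θ / d) ^ k := by
    apply Summable.mul_left
    apply summable_geometric_of_lt_one (by positivity)
    rw [div_lt_one hd0]
    exact hθd
  have hder : ∀ (k : ℕ) (y : E n), y ∈ Metric.ball z (‖z‖ - 1 / 2) →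
      HasFDerivAt (fun y => ((d : ℝ) ^ (k + 1))⁻¹ • u f d (f^[k] y))
        (((d : ℝ) ^ (k + 1))⁻¹ • fderiv ℝ (fun y => u f d (f^[k] y)) y) y := by
    intro k y hy
    have h4 := (hU k y y (hball y hy) (hball y hy)).1.hasFDerivAt
    exact HasFDerivAt.const_smul h4 (((d : ℝ) ^ (k + 1))⁻¹)
  have hbd : ∀ (k : ℕ) (y : E n), y ∈ Metric.ball z (‖z‖ - 1 / 2) →
      ‖((d : ℝ) ^ (k + 1))⁻¹ • fderiv ℝ (fun y => u f d (f^[k] y)) y‖ ≤ L / d * (θ / d) ^ k := by
    intro k y hy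
    have h4 := (hU k y y (hball y hy) (hball y hy)).2.1
    rw [norm_smul, Real.norm_eq_abs, abs_of_pos (by positivity)]
    calc ((d : ℝ) ^ (k + 1))⁻¹ * ‖fderiv ℝ (fun y => u f d (f^[k] y)) y‖
        ≤ ((d : ℝ) ^ (k + 1))⁻¹ * (L * θ ^ k) := by
          apply mul_le_mul_of_nonneg_left h4 (by positivity)
      _ = L / d * (θ / d) ^ k := by
          rw [div_pow, pow_succ]
          field_simp
  have hsz : Summable fun k : ℕ => ((d : ℝ) ^ (k + 1))⁻¹ • u f d (f^[k] z) := by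
    apply Summable.of_norm_bounded (g := fun k : ℕ => L' / d * (1 / d) ^ k)
    · apply Summable.mul_left
      apply summable_geometric_of_lt_one (by positivity)
      rw [div_lt_one hd0]
      linarith
    · intro k
      have hz0 : z ≠ 0 := by
        intro h
        rw [h, norm_zero] at hz
        linarith
      have h4 := hB (f^[k] z) ((hI k).2.1 z hz0)
      rw [norm_smul, Real.norm_eq_abs, Real.norm_eq_abs, abs_of_pos (by positivity)]
      calc ((d : ℝ) ^ (k + 1))⁻¹ * |u f d (f^[k] z)| ≤ ((d : ℝ) ^ (k + 1))⁻¹ * L' := by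
            apply mul_le_mul_of_nonneg_left h4 (by positivity)
        _ = L' / d * (1 / d) ^ k := by
            rw [div_pow, pow_succ, one_pow]
            field_simp
  have hzm : z ∈ Metric.ball z (‖z‖ - 1 / 2) := Metric.mem_ball_self (by linarith)
  have hmain : HasFDerivAt (S f d)
      (∑' k : ℕ, ((d : ℝ) ^ (k + 1))⁻¹ • fderiv ℝ (fun y => u f d (f^[k] y)) z) z := by
    rw [hS]
    exact hasFDerivAt_tsum_of_isPreconnected (𝕜 := ℝ) hsum Metric.isOpen_ball
      (convex_ball z _).isPreconnected hder hbd hzm hsz hzm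
  exact ⟨hmain.differentiableAt, hmain.fderiv⟩

end Pool.CBE
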